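import Pool.Agent.Y578.Spl.Since

set_option autoImplicit false

/-!
# Splaying against trees that are restructured at will

`Tr`, `keys`, `IsBST`, `dep` and `costSplay` are those of `Pool.Agent.H581R2.SplayDef`; `since` is
defined in `Pool.Agent.Y578.Spl.Since`.

Let `T 0, T 1, …` be an arbitrary sequence of search trees on the same keys; request number `i` is
made in `T i`, and changing the tree costs nothing. Splaying from `T 0` costs at most the sum of
`7 + 15 M i`, where `M i` is the greatest depth of the `i`-th requested key in the trees since its
previous request (since the start if there is none). There is no additive term.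
-/

namespace Pool.Agent.Results.MP_c42954_lc.MaxDepth

open Pool.Agent.H581R2.Splay Pool.Agent.Y578.Spl

theorem result (T : ℕ → Tr) (x : ℕ → ℕ) (m : ℕ) (hb : IsBST (T 0))
    (hk : ∀ s, keys (T s) = keys (T 0)) (hx : ∀ i < m, x i ∈ keys (T 0)) :
    costSplay (T 0) ((List.range m).map x) ≤
      ∑ i ∈ Finset.range m, (7 + 15 * since T x i (x i)) :=
  cost_since hb hk hx

end Pool.Agent.Results.MP_c42954_lc.MaxDepth
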