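import Pool.Agent.Y395.SP.Asm

set_option autoImplicit false

/-!
# Splay trees are dynamically optimal for random request sequences

`Tr`, `keys`, `IsBST`, `dep`, `splay`, `costSplay` are those of `Pool.Agent.H581R2.SplayDef`. `Exec T X c`
(`Pool.Agent.TH49.Spl.Defs`): there is an execution of cost `c` for the requests `X` with initial tree
`T`; a request costs one plus the depth of the key, a rotation anywhere costs one. `opt T X` is the
least cost, `optAny K X` the least cost over all initial trees with the keys `K`.

The requests are random and chosen by an adaptive adversary: `π h x` is the conditional probability of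
the request `x` after the requests `h` (the most recent one first), an arbitrary function of the
history; `prob K π m P` is the probability that the sequence of the first `m` requests has the property
`P`.

(1) If the conditional probability of a key increases only at the requests of this key, more generally
if `π (L ++ h) x ≤ A (π h x)^δ` whenever `x` is not in `L`, then with probability at least
`1 - 2^(-m)` splaying costs at most `((150 + 12 log₂ A) OPT + 68 n log₂ (2n)) / δ`, for every initial
tree, where OPT may choose its initial tree. (Arbitrary independent identically distributed requests,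
Polya urns, reinforced processes, LRU stack models with any nonincreasing stack distribution, ...)

(2) The same holds, with `((74 + 6 log₂ A) OPT + 30 n log₂ (2n)) / δ`, if `π h x ≤ A (ws h x + 1)^(-δ)`,
where `ws h x` is the number of distinct keys requested since the last request of `x`. (For instance if
every request is chosen with some randomness, of at least `δ log₂ n - log₂ A` bits of min-entropy.)

(3) Let `τ h` be any reference trees depending on the history with `τ [] = T` the initial tree of the
splay tree. If `π h x ≤ A 2^(-δ M)`, where `M` is the greatest depth of `x` in the reference trees since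
its last request, then with probability at least `1 - 2^(-m)` splaying costs at most
`((202 + 15 log₂ A) / δ) OPT` without any additive term, OPT starting from the same tree.

Proof. (a) Counting: for every initial tree at most `2^(9c + 1)` sequences of given length have an
execution of cost at most `c`. As rotations may take place anywhere, they first have to be postponed
until they meet a search path; then an execution is coded by the shapes of the rearranged top parts.
So a random sequence has `10 OPT + 2n + 3 + m ≥ log₂ (1 / probability)` with probability `1 - 2^(-m)`.
(b) Splaying costs at most a constant times the sum of the depths in arbitrary reference trees since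
the last request (result MaxDepth); in (1) the reference trees are the weight balanced trees for the
current conditional probabilities.
-/

namespace Pool.Agent.Results.MP_c42954_lc.RandomRequests

open Pool.Agent.H581R2.Splay Pool.Agent.TH49.Spl Pool.Agent.Y395.SP

theorem result (T : Tr) (hT : IsBST T) (hn : T ≠ Tr.nil) (π : List ℕ → ℕ → ℝ)
    (h0 : ∀ h x, 0 ≤ π h x) (h1 : ∀ h, ∑ x ∈ (keys T).toFinset, π h x = 1)
    (A δ : ℝ) (hA : 1 ≤ A) (hδ : 0 < δ) (hδ1 : δ ≤ 1) (m : ℕ) :
    ((∀ (h L : List ℕ), ∀ x ∈ keys T, x ∉ L → π (L ++ h) x ≤ A * (π h x) ^ δ) →
      1 - (1 / 2 : ℝ) ^ m ≤ prob (keys T).toFinset π m (fun X => (costSplay T X : ℝ) ≤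
        ((150 + 12 * Real.logb 2 A) * (optAny (keys T) X : ℝ) +
          68 * ((keys T).length * Real.logb 2 (2 * (keys T).length))) / δ)) ∧
    ((∀ h, ∀ x ∈ keys T, π h x ≤ A * ((ws h x : ℝ) + 1) ^ (-δ)) →
      1 - (1 / 2 : ℝ) ^ m ≤ prob (keys T).toFinset π m (fun X => (costSplay T X : ℝ) ≤
        ((74 + 6 * Real.logb 2 A) * (optAny (keys T) X : ℝ) +
          30 * ((keys T).length * Real.logb 2 (2 * (keys T).length))) / δ)) ∧
    (∀ τ : List ℕ → Tr, τ [] = T → (∀ h, keys (τ h) = keys T) →
      (∀ h, ∀ x ∈ keys T, π h x ≤ A * (2 : ℝ) ^ (-(δ * rd τ x h))) → 1 ≤ m →
      1 - (1 / 2 : ℝ) ^ m ≤ prob (keys T).toFinset π m (fun X => (costSplay T X : ℝ) ≤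
        ((202 + 15 * Real.logb 2 A) / δ) * (opt T X : ℝ))) := by
  classical
  refine ⟨fun hπ => prob_compl h1 ?_, fun hπ => prob_compl h1 ?_,
    fun τ hτ hk hπ hm => prob_compl h1 ?_⟩
  · have := part3 kraft2_holds T hT hn π h0 h1 A δ hA hδ hδ1 hπ m
    unfold prob
    simp only [not_le]
    convert this
  · have := part1 kraft2_holds ws_holds T hT hn π h0 A δ hA hδ hδ1 hπ m
    unfold prob
    simp only [not_le]
    convert this
  · have := part2 kraft1_holds T hT π h0 A δ hA hδ hδ1 τ hτ hk hπ m hm
    unfold prob
    simp only [not_le]
    convert this

end Pool.Agent.Results.MP_c42954_lc.RandomRequests
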