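import Pool.Agent.Y395.SP.Asm2

set_option autoImplicit false

/-!
# Splay trees: relabelled, typical and smoothed request sequences

`Tr`, `keys`, `IsBST`, `splay`, `costSplay` are those of `Pool.Agent.H581R2.SplayDef`;
`optAny K X` (`Pool.Agent.TH49.Spl.Defs`) is the least cost of an execution for the requests `X`, over
all initial trees with the keys `K`. `n` is the number of keys and `m` the number of requests. `seqs K m`
is the set of all request sequences of length `m`.

(1) Dynamic optimality holds up to one adaptive relabelling of the keys. There are permutations `σ h`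
of the keys, depending only on the history `h` of the requests, such that for EVERY request sequence
`X`, of every length, splaying the relabelled sequence `σ [] x₁, σ [x₁] x₂, σ [x₂, x₁] x₃, ...` costs at
most `74 OPT(X) + 36 n log₂ (2n)`, where OPT may choose its initial tree. The relabelling is a bijection
of the request sequences of each length. In particular, for all `m` and `B`, at least as many sequences
of length `m` have splay cost at most `74 B + 36 n log₂ (2n)` as have optimal cost at most `B`: the
`k`-th smallest costs of splaying and of OPT agree up to a constant factor, for every `k`.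

(2) Typical sequences of every level. If `m ≥ n log₂ (2n)` then for every `B` all but a proportion
`2^(-m)` of the sequences of length `m` with splay cost at most `B` have splay cost at most `120 OPT`.

(3) Few exceptions. If `m ≥ n` and `0 < ε ≤ 1` then at most `(2n)^(ε m)` of the `n^m` sequences have
splay cost greater than `(280 / ε) OPT`.

(4) Smoothed requests. The requests are chosen by an adaptive adversary, `π h x` is the conditional
probability of the request `x` after the history `h`. If after every history the probability is at
least `ε` that the next request is one with `π h x ≤ A n^(-δ)` (for instance if the adversary chooses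
the request, but with probability `2 ε` it is replaced by a random element of a set of `n^δ` keys which
he chooses), then with probability at least `1 - 2^(-m) - exp(-ε m / 4)` splaying costs at most
`((272 + 6 log₂ A) OPT + 120 n log₂ (2n)) / (ε δ)`.

Proof. The numbers `2^(-10 OPT(X) - 2 n - 3)` have sum at most `1` over the sequences of each length
(result RandomRequests). Hence there is a superharmonic function `V` on the tree of histories with
`V [] ≤ 1` and `V (X) ≥ 2^(-11 OPT(X) - 2 n - 4)`. After each history the key with the `i`-th largest
value of `V` is replaced by the key with the `i`-th smallest working set number; the working set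
bound gives (1). (2) and (3) compare the number of sequences with OPT at most `B` with the number of
sequences which use only `k` keys. In (4) the sequence has probability at most `(A n^(-δ))^(ε m / 4)`,
except with probability `exp(-ε m / 4)`, whereas the sum above shows that a sequence of small OPT
typically has a large probability.
-/

namespace Pool.Agent.Results.MP_c42954_lc.RelabelledRequests

open Pool.Agent.H581R2.Splay Pool.Agent.TH49.Spl Pool.Agent.Y395.SP

open scoped Classical in
theorem result (T : Tr) (hT : IsBST T) (hn : T ≠ Tr.nil) :
    -- (1) one adaptive relabelling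
    (∃ σ : List ℕ → Equiv.Perm ℕ, (∀ h x, x ∈ keys T ↔ σ h x ∈ keys T) ∧
      (∀ Y : List ℕ, (∀ y ∈ Y, y ∈ keys T) →
        ∃! X : List ℕ, (∀ x ∈ X, x ∈ keys T) ∧ recode σ [] X = Y) ∧
      ∀ X : List ℕ, (∀ x ∈ X, x ∈ keys T) →
        (costSplay T (recode σ [] X) : ℝ) ≤ 74 * (optAny (keys T) X : ℝ) +
          36 * ((keys T).length * Real.logb 2 (2 * (keys T).length))) ∧
    -- the numbers of sequences of small cost
    (∀ (m : ℕ) (B : ℝ),
      ((seqs (keys T).toFinset m).filter
          (fun X => (optAny (keys T) (List.ofFn X) : ℝ) ≤ B)).card ≤
        ((seqs (keys T).toFinset m).filter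
          (fun X => (costSplay T (List.ofFn X) : ℝ) ≤ 74 * B +
            36 * ((keys T).length * Real.logb 2 (2 * (keys T).length)))).card) ∧
    -- (2) typical sequences of every level
    (∀ (m B : ℕ), (keys T).length * Real.logb 2 (2 * (keys T).length) ≤ m →
      (((seqs (keys T).toFinset m).filter (fun X => costSplay T (List.ofFn X) ≤ B ∧
          120 * optAny (keys T) (List.ofFn X) < costSplay T (List.ofFn X))).card : ℝ) ≤
        (1 / 2 : ℝ) ^ m *
          ((seqs (keys T).toFinset m).filter (fun X => costSplay T (List.ofFn X) ≤ B)).card) ∧
    -- (3) few exceptions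
    (∀ (m : ℕ) (ε : ℝ), 0 < ε → ε ≤ 1 → (keys T).length ≤ m →
      (((seqs (keys T).toFinset m).filter (fun X =>
          280 / ε * (optAny (keys T) (List.ofFn X) : ℝ) < costSplay T (List.ofFn X))).card : ℝ) ≤
        (2 * (keys T).length : ℝ) ^ (ε * m)) ∧
    -- (4) smoothed requests
    (∀ (π : List ℕ → ℕ → ℝ), (∀ h x, 0 ≤ π h x) →
      (∀ h, ∑ x ∈ (keys T).toFinset, π h x = 1) →
      ∀ (A δ ε : ℝ), 1 ≤ A → 0 < δ → δ ≤ 1 → 0 < ε → ε ≤ 1 →
      (∀ h, ε ≤ ∑ x ∈ (keys T).toFinset.filter
        (fun x => π h x ≤ A * ((keys T).length : ℝ) ^ (-δ)), π h x) →
      ∀ m : ℕ, 1 - (1 / 2 : ℝ) ^ m - Real.exp (-(ε * m / 4)) ≤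
        prob (keys T).toFinset π m (fun X => (costSplay T X : ℝ) ≤
          ((272 + 6 * Real.logb 2 A) * (optAny (keys T) X : ℝ) +
            120 * ((keys T).length * Real.logb 2 (2 * (keys T).length))) / (ε * δ))) := by
  obtain ⟨σ, h1, h2⟩ := relabelling_holds T hT hn
  refine ⟨⟨σ, h1, fun Y hY => ?_, h2⟩, fun m B => equi h1 h2 m B, level_holds T hT hn,
    exc_holds T hT hn, smooth_holds T hT hn⟩
  have := recode_bij σ (keys T).toFinset (fun h x => by
    simp only [List.mem_toFinset]; exact h1 h x) Y [] (fun y hy => List.mem_toFinset.2 (hY y hy))
  simpa only [List.mem_toFinset] using this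

end Pool.Agent.Results.MP_c42954_lc.RelabelledRequests
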